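import Mathlib

/-!
# Upho posets and multiplicability: definitions
-/

namespace Pool.Agent.H669Z.Upho

/-- `P` is upho: every principal filter `U(a) = {x | a ≤ x}` is order-isomorphic to `P`. -/
def IsUpho (P : Type) [PartialOrder P] : Prop :=
  ∀ a : P, Nonempty (Set.Ici a ≃o P)

/-- `P` is finitary: every element has finite height (supremum of the lengths of the strict
chains below it). -/
def IsFinitary (P : Type) [PartialOrder P] : Prop :=
  ∀ a : P, Order.height a < ⊤

/-- `P` has a minimum `e` and a rank function `ρ : P → ℕ` with `ρ e = 0`, rising by one along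
covers, and with finite fibres. -/
def IsFiniteTypeGraded (P : Type) [PartialOrder P] : Prop :=
  ∃ (e : P) (ρ : P → ℕ), (∀ x, e ≤ x) ∧ ρ e = 0 ∧ (∀ x y, x ⋖ y → ρ y = ρ x + 1) ∧
    ∀ n, {x | ρ x = n}.Finite

/-- `P` is multiplicable: its underlying set carries a left-cancellative, invertible-free monoid
structure whose left-divisibility relation is the order of `P`. -/
def IsMultiplicable (P : Type) [PartialOrder P] : Prop :=
  ∃ (mul : P → P → P) (e : P),
    (∀ a b c, mul (mul a b) c = mul a (mul b c)) ∧ (∀ a, mul e a = a) ∧ (∀ a, mul a e = a) ∧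
    (∀ a b c, mul a b = mul a c → b = c) ∧ (∀ a b, mul a b = e → a = e ∧ b = e) ∧
    ∀ a b, a ≤ b ↔ ∃ c, mul a c = b

end Pool.Agent.H669Z.Upho
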