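import Pool.Agent.H669Z.Upho.Defs

/-!
# The lattice of subgroups of `ℤ × ℤ` with basis `(4^k, 0), (x, 2^b)`
-/

namespace Pool.Agent.H669Z.Upho

/-- The linear map with columns `(4^k,0)` and `(x,2^b)`. -/
def gm (k b : ℕ) (x : ℤ) : ℤ × ℤ →+ ℤ × ℤ where
  toFun v := (4 ^ k * v.1 + x * v.2, 2 ^ b * v.2)
  map_zero' := by simp
  map_add' u v := by
    ext
    · simp only [Prod.fst_add, Prod.snd_add]; ring
    · simp only [Prod.snd_add]; ring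

theorem gm_apply (k b : ℕ) (x : ℤ) (v : ℤ × ℤ) :
    gm k b x v = (4 ^ k * v.1 + x * v.2, 2 ^ b * v.2) := rfl

theorem gm_inj (k b : ℕ) (x : ℤ) : Function.Injective (gm k b x) := by
  rintro ⟨s, t⟩ ⟨s', t'⟩ h
  rw [gm_apply, gm_apply, Prod.mk.injEq] at h
  obtain ⟨h1, h2⟩ := h
  have h3 : t = t' := mul_left_cancel₀ (by positivity) h2
  subst h3
  have h4 : (4 : ℤ) ^ k * s = 4 ^ k * s' := by simpa using h1
  have h5 : s = s' := mul_left_cancel₀ (by positivity) h4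
  rw [h5]

def lat (k b : ℕ) (x : ℤ) : AddSubgroup (ℤ × ℤ) := (gm k b x).range

theorem mem_lat {k b : ℕ} {x m n : ℤ} :
    (m, n) ∈ lat k b x ↔ ∃ s t : ℤ, m = 4 ^ k * s + x * t ∧ n = 2 ^ b * t := by
  constructor
  · rintro ⟨⟨s, t⟩, h⟩
    rw [gm_apply, Prod.mk.injEq] at h
    exact ⟨s, t, h.1.symm, h.2.symm⟩
  · rintro ⟨s, t, h1, h2⟩
    exact ⟨(s, t), by rw [gm_apply, h1, h2]⟩

theorem mem_lat_zero {k b : ℕ} {x m : ℤ} : (m, 0) ∈ lat k b x ↔ 4 ^ k ∣ m := by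
  rw [mem_lat]
  constructor
  · rintro ⟨s, t, h1, h2⟩
    have : t = 0 := by
      rcases mul_eq_zero.1 h2.symm with h | h
      · exact absurd h (by positivity)
      · exact h
    subst this
    exact ⟨s, by simpa using h1⟩
  · rintro ⟨s, rfl⟩
    exact ⟨s, 0, by simp, by simp⟩

theorem gen1_mem (k b : ℕ) (x : ℤ) : ((4 : ℤ) ^ k, (0 : ℤ)) ∈ lat k b x :=
  mem_lat_zero.2 dvd_rfl

theorem gen2_mem (k b : ℕ) (x : ℤ) : (x, (2 : ℤ) ^ b) ∈ lat k b x :=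
  mem_lat.2 ⟨0, 1, by simp, by simp⟩

theorem lat_le {k b : ℕ} {x : ℤ} {L : AddSubgroup (ℤ × ℤ)}
    (h1 : ((4 : ℤ) ^ k, (0 : ℤ)) ∈ L) (h2 : (x, (2 : ℤ) ^ b) ∈ L) : lat k b x ≤ L := by
  rintro ⟨m, n⟩ h
  obtain ⟨s, t, rfl, rfl⟩ := mem_lat.1 h
  have := L.add_mem (L.zsmul_mem h1 s) (L.zsmul_mem h2 t)
  convert this using 1
  ext
  · simp; ring
  · simp; ring

theorem pow4_dvd_iff {k j : ℕ} : (4 : ℤ) ^ k ∣ 4 ^ j ↔ k ≤ j :=
  pow_dvd_pow_iff (by norm_num) (by rw [Int.isUnit_iff]; norm_num)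

theorem pow2_dvd_iff {k j : ℕ} : (2 : ℤ) ^ k ∣ 2 ^ j ↔ k ≤ j :=
  pow_dvd_pow_iff (by norm_num) (by rw [Int.isUnit_iff]; norm_num)

theorem le_k {k b k' b' : ℕ} {x x' : ℤ} (h : lat k' b' x' ≤ lat k b x) : k ≤ k' :=
  pow4_dvd_iff.1 (mem_lat_zero.1 (h (gen1_mem _ _ _)))

theorem le_b {k b k' b' : ℕ} {x x' : ℤ} (h : lat k' b' x' ≤ lat k b x) : b ≤ b' := by
  obtain ⟨s, t, -, h2⟩ := mem_lat.1 (h (gen2_mem _ _ _))
  exact pow2_dvd_iff.1 ⟨t, h2⟩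

theorem eq_of_le {k b : ℕ} {x x' : ℤ} (h : lat k b x' ≤ lat k b x) : lat k b x' = lat k b x := by
  refine le_antisymm h (lat_le (gen1_mem _ _ _) ?_)
  obtain ⟨s, t, h1, h2⟩ := mem_lat.1 (h (gen2_mem _ _ _))
  have ht : t = 1 := by
    have : (2 : ℤ) ^ b * 1 = 2 ^ b * t := by simpa using h2
    exact (mul_left_cancel₀ (by positivity) this).symm
  subst ht
  exact mem_lat.2 ⟨-s, 1, by rw [h1]; ring, by simp⟩

def Good (L : AddSubgroup (ℤ × ℤ)) : Prop := ∃ k b x, L = lat k b x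

theorem good_of (L : AddSubgroup (ℤ × ℤ)) (k N : ℕ) (m0 : ℤ)
    (h1 : ∀ m : ℤ, (m, (0 : ℤ)) ∈ L ↔ 4 ^ k ∣ m) (h2 : (m0, (2 : ℤ) ^ N) ∈ L) :
    ∃ b x, L = lat k b x := by
  obtain ⟨a, ha⟩ := Int.subgroup_cyclic (L.map (AddMonoidHom.snd ℤ ℤ))
  have hmem : ∀ n : ℤ, (∃ m, (m, n) ∈ L) ↔ a ∣ n := by
    intro n
    have : n ∈ L.map (AddMonoidHom.snd ℤ ℤ) ↔ a ∣ n := by
      rw [ha, AddSubgroup.mem_closure_singleton]
      constructor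
      · rintro ⟨c, hc⟩
        exact ⟨c, by rw [← hc]; simp [mul_comm]⟩
      · rintro ⟨c, hc⟩
        exact ⟨c, by rw [hc]; simp [mul_comm]⟩
    rw [← this, AddSubgroup.mem_map]
    constructor
    · rintro ⟨m, hm⟩
      exact ⟨(m, n), hm, rfl⟩
    · rintro ⟨⟨m, n'⟩, hm, rfl⟩
      exact ⟨m, hm⟩
  have hd : a ∣ 2 ^ N := (hmem _).1 ⟨m0, h2⟩
  have hd' : a.natAbs ∣ 2 ^ N := by
    have := Int.natAbs_dvd_natAbs.2 hd
    simpa [Int.natAbs_pow] using this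
  obtain ⟨b, -, hb⟩ := (Nat.dvd_prime_pow Nat.prime_two).1 hd'
  have hab : ∀ n : ℤ, a ∣ n ↔ 2 ^ b ∣ n := by
    intro n
    rw [← Int.natAbs_dvd, hb]
    simp
  obtain ⟨x, hx⟩ := (hmem (2 ^ b)).2 ((hab _).2 dvd_rfl)
  refine ⟨b, x, le_antisymm ?_ (lat_le ((h1 _).2 dvd_rfl) hx)⟩
  rintro ⟨m, n⟩ h
  obtain ⟨t, rfl⟩ := (hab _).1 ((hmem _).1 ⟨m, h⟩)
  have h3 := L.sub_mem h (L.zsmul_mem hx t)
  have h4 : (m - x * t, (0 : ℤ)) ∈ L := by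
    convert h3 using 1
    ext
    · simp; ring
    · simp; ring
  obtain ⟨s, hs⟩ := (h1 _).1 h4
  exact mem_lat.2 ⟨s, t, by linarith, rfl⟩

theorem good_sInf (F : Set (AddSubgroup (ℤ × ℤ))) (hF : ∀ M ∈ F, Good M) (k0 N : ℕ) (m0 : ℤ)
    (h1 : ((4 : ℤ) ^ k0, (0 : ℤ)) ∈ sInf F) (h2 : (m0, (2 : ℤ) ^ N) ∈ sInf F) : Good (sInf F) := by
  classical
  have hex : ∃ K : ℕ, ((4 : ℤ) ^ K, (0 : ℤ)) ∈ sInf F := ⟨k0, h1⟩
  refine ⟨Nat.find hex, good_of _ _ N m0 (fun m => ⟨fun h => ?_, ?_⟩) h2⟩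
  · rcases hK : Nat.find hex with _ | K
    · simp
    · have hn := Nat.find_min hex (m := K) (by omega)
      rw [AddSubgroup.mem_sInf] at hn h
      push Not at hn
      obtain ⟨M, hM, hn⟩ := hn
      obtain ⟨k, b, x, rfl⟩ := hF M hM
      rw [mem_lat_zero, pow4_dvd_iff] at hn
      exact (pow4_dvd_iff.2 (by omega)).trans (mem_lat_zero.1 (h _ hM))
  · rintro ⟨s, rfl⟩
    have := (sInf F).zsmul_mem (Nat.find_spec hex) s
    convert this using 1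
    ext
    · simp; ring
    · simp

theorem mem_big1 {k b j : ℕ} {x : ℤ} (h : k ≤ j) : ((4 : ℤ) ^ j, (0 : ℤ)) ∈ lat k b x :=
  mem_lat_zero.2 (pow4_dvd_iff.2 h)

theorem mem_big2 {k b j : ℕ} {x : ℤ} (h : 2 * k + b ≤ j) : ((0 : ℤ), (2 : ℤ) ^ j) ∈ lat k b x := by
  obtain ⟨i, rfl⟩ := Nat.exists_eq_add_of_le h
  refine mem_lat.2 ⟨-x * 2 ^ i, 4 ^ k * 2 ^ i, by ring, ?_⟩
  rw [pow_add, pow_add, pow_mul]; norm_num; ring

theorem good_inf {L M : AddSubgroup (ℤ × ℤ)} (hL : Good L) (hM : Good M) : Good (L ⊓ M) := by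
  have := good_sInf {L, M} (by rintro _ (rfl | rfl) <;> assumption)
  rw [sInf_pair] at this
  obtain ⟨k, b, x, rfl⟩ := hL
  obtain ⟨k', b', x', rfl⟩ := hM
  exact this (k + k') (2 * k + b + (2 * k' + b')) 0
    ⟨mem_big1 (by omega), mem_big1 (by omega)⟩ ⟨mem_big2 (by omega), mem_big2 (by omega)⟩

theorem good_hull {L M : AddSubgroup (ℤ × ℤ)} (hL : Good L) :
    Good (sInf {N | Good N ∧ L ≤ N ∧ M ≤ N}) := by
  obtain ⟨k, b, x, rfl⟩ := hL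
  refine good_sInf _ (fun N hN => hN.1) k b x ?_ ?_
  · exact AddSubgroup.mem_sInf.2 fun N hN => hN.2.1 (gen1_mem _ _ _)
  · exact AddSubgroup.mem_sInf.2 fun N hN => hN.2.1 (gen2_mem _ _ _)

theorem good_map (k b : ℕ) (x : ℤ) {M : AddSubgroup (ℤ × ℤ)} (hM : Good M) :
    Good (M.map (gm k b x)) := by
  obtain ⟨k', b', x', rfl⟩ := hM
  refine ⟨k + k', b + b', 4 ^ k * x' + x * 2 ^ b', ?_⟩
  rw [lat, lat, AddMonoidHom.map_range]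
  congr 1
  ext <;> simp [gm_apply] <;> ring

theorem good_comap (k b : ℕ) (x : ℤ) {M : AddSubgroup (ℤ × ℤ)} (hM : Good M)
    (hle : M ≤ lat k b x) : Good (M.comap (gm k b x)) := by
  obtain ⟨k', b', x', rfl⟩ := hM
  obtain ⟨j, rfl⟩ := Nat.exists_eq_add_of_le (le_k hle)
  refine ⟨j, good_of _ j (2 * (k + j) + b') 0 (fun m => ?_) ?_⟩
  · rw [AddSubgroup.mem_comap, gm_apply]
    simp only [mul_zero, add_zero]
    rw [mem_lat_zero, pow_add]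
    exact mul_dvd_mul_iff_left (by positivity)
  · rw [AddSubgroup.mem_comap, gm_apply]
    refine mem_lat.2 ⟨x * 2 ^ b' - x' * 2 ^ b, 4 ^ (k + j) * 2 ^ b, ?_, ?_⟩
    · rw [pow_add 2, pow_mul]; norm_num; ring
    · rw [pow_add 2, pow_mul]; norm_num; ring

end Pool.Agent.H669Z.Upho
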