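import Pool.Agent.H669Z.Upho.Lat

/-!
# A finite-type graded upho lattice that is not multiplicable
-/

namespace Pool.Agent.H669Z.Upho

/-- Good subgroups, ordered by reverse inclusion. -/
def PP : Type := {L : AddSubgroup (ℤ × ℤ) // Good L}

instance : PartialOrder PP where
  le a b := b.1 ≤ a.1
  le_refl _ := le_rfl
  le_trans _ _ _ h1 h2 := le_trans h2 h1
  le_antisymm _ _ h1 h2 := Subtype.ext (le_antisymm h2 h1)

theorem le_def {a b : PP} : a ≤ b ↔ b.1 ≤ a.1 := Iff.rfl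

instance : Lattice PP where
  sup a b := ⟨a.1 ⊓ b.1, good_inf a.2 b.2⟩
  le_sup_left _ _ := le_def.2 inf_le_left
  le_sup_right _ _ := le_def.2 inf_le_right
  sup_le _ _ _ h1 h2 := le_def.2 (le_inf h1 h2)
  inf a b := ⟨sInf {N | Good N ∧ a.1 ≤ N ∧ b.1 ≤ N}, good_hull a.2⟩
  inf_le_left _ _ := le_def.2 (le_sInf fun _ hN => hN.2.1)
  inf_le_right _ _ := le_def.2 (le_sInf fun _ hN => hN.2.2)
  le_inf a _ _ h1 h2 := le_def.2 (sInf_le ⟨a.2, h1, h2⟩)

def pt (k b : ℕ) (x : ℤ) : PP := ⟨lat k b x, k, b, x, rfl⟩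

theorem exists_pt (a : PP) : ∃ k b x, a = pt k b x := by
  obtain ⟨L, k, b, x, rfl⟩ := a
  exact ⟨k, b, x, rfl⟩

theorem pt_le {k b k' b' : ℕ} {x x' : ℤ} : pt k b x ≤ pt k' b' x' ↔ lat k' b' x' ≤ lat k b x :=
  Iff.rfl

theorem pt_eq {k b k' b' : ℕ} {x x' : ℤ} (h : pt k b x = pt k' b' x') : k = k' ∧ b = b' :=
  ⟨le_antisymm (le_k (pt_le.1 h.le)) (le_k (pt_le.1 h.ge)),
    le_antisymm (le_b (pt_le.1 h.le)) (le_b (pt_le.1 h.ge))⟩

noncomputable def rk (a : PP) : ℕ :=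
  (exists_pt a).choose + (exists_pt a).choose_spec.choose

theorem rk_pt (k b : ℕ) (x : ℤ) : rk (pt k b x) = k + b := by
  obtain ⟨x', h⟩ := (exists_pt (pt k b x)).choose_spec.choose_spec
  obtain ⟨h1, h2⟩ := pt_eq h
  unfold rk
  omega

theorem rk_strictMono : StrictMono rk := by
  intro a c h
  obtain ⟨k, b, x, rfl⟩ := exists_pt a
  obtain ⟨k', b', x', rfl⟩ := exists_pt c
  rw [rk_pt, rk_pt]
  have h1 := le_k (pt_le.1 h.le)
  have h2 := le_b (pt_le.1 h.le)
  by_contra hc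
  have hk : k' = k := by omega
  have hb : b' = b := by omega
  subst hk hb
  exact h.ne (Subtype.ext (eq_of_le (pt_le.1 h.le)).symm)

theorem covBy_of_rk {a c : PP} (h : a ≤ c) (hr : rk c = rk a + 1) : a ⋖ c := by
  refine ⟨lt_of_le_of_ne h (by rintro rfl; omega), fun z h1 h2 => ?_⟩
  have := rk_strictMono h1
  have := rk_strictMono h2
  omega

theorem cover_cases {k b : ℕ} {x : ℤ} {c : PP} (h : pt k b x ⋖ c) :
    c = pt k (b + 1) (2 * x) ∨ ∃ j : ℤ, c = pt (k + 1) b (x + 4 ^ k * j) := by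
  obtain ⟨k', b', x', rfl⟩ := exists_pt c
  have hle := pt_le.1 h.le
  have h1 := le_k hle
  have h2 := le_b hle
  obtain ⟨s, t, hs, ht⟩ := mem_lat.1 (hle (gen2_mem _ _ _))
  rcases h2.lt_or_eq with hb | hb
  · left
    have hlt : pt k b x < pt k (b + 1) (2 * x) := by
      refine lt_of_le_of_ne (pt_le.2 (lat_le (gen1_mem _ _ _) (mem_lat.2 ⟨0, 2, ?_, ?_⟩))) ?_
      · ring
      · ring
      · intro h'
        have := (pt_eq h').2
        omega
    have hle2 : pt k (b + 1) (2 * x) ≤ pt k' b' x' := by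
      obtain ⟨i, rfl⟩ := Nat.exists_eq_add_of_lt hb
      have ht' : t = 2 * 2 ^ i := by
        have : (2 : ℤ) ^ b * (2 * 2 ^ i) = 2 ^ b * t := by rw [← ht]; ring
        exact (mul_left_cancel₀ (by positivity) this).symm
      refine pt_le.2 (lat_le (mem_big1 h1) (mem_lat.2 ⟨s, 2 ^ i, ?_, ?_⟩))
      · rw [hs, ht']; ring
      · ring
    exact ((h.eq_or_eq hlt.le hle2).resolve_left hlt.ne').symm
  · right
    subst hb
    have ht' : t = 1 := by
      have : (2 : ℤ) ^ b * 1 = 2 ^ b * t := by simpa using ht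
      exact (mul_left_cancel₀ (by positivity) this).symm
    subst ht'
    have hk : k < k' := by
      have := rk_strictMono h.lt
      rw [rk_pt, rk_pt] at this
      omega
    refine ⟨s, ?_⟩
    have hx : x + 4 ^ k * s = x' := by rw [hs]; ring
    rw [hx]
    have hlt : pt k b x < pt (k + 1) b x' := by
      refine lt_of_le_of_ne (pt_le.2 (lat_le (mem_big1 (by omega)) (hle (gen2_mem _ _ _)))) ?_
      intro h'
      have := (pt_eq h').1
      omega
    have hle2 : pt (k + 1) b x' ≤ pt k' b x' :=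
      pt_le.2 (lat_le (mem_big1 hk) (gen2_mem _ _ _))
    exact ((h.eq_or_eq hlt.le hle2).resolve_left hlt.ne').symm

theorem rk_cover {a c : PP} (h : a ⋖ c) : rk c = rk a + 1 := by
  obtain ⟨k, b, x, rfl⟩ := exists_pt a
  rcases cover_cases h with rfl | ⟨j, rfl⟩ <;> rw [rk_pt, rk_pt] <;> omega

theorem bot_le' (a : PP) : pt 0 0 0 ≤ a := by
  rintro ⟨m, n⟩ -
  exact mem_lat.2 ⟨m, n, by simp, by simp⟩

theorem pt_mod (k b : ℕ) (x : ℤ) : pt k b x = pt k b (x % 4 ^ k) := by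
  refine Subtype.ext (eq_of_le (lat_le (gen1_mem _ _ _) (mem_lat.2 ⟨x / 4 ^ k, 1, ?_, by simp⟩)))
  rw [mul_one, Int.mul_ediv_add_emod]

theorem finite_rank (n : ℕ) : {a : PP | rk a = n}.Finite := by
  refine ((Finset.range (n + 1) ×ˢ Finset.range (n + 1) ×ˢ Finset.Ico (0 : ℤ) (4 ^ n)).finite_toSet.image
    (fun p => pt p.1 p.2.1 p.2.2)).subset ?_
  intro a ha
  obtain ⟨k, b, x, rfl⟩ := exists_pt a
  rw [Set.mem_ofPred_eq, rk_pt] at ha
  refine ⟨(k, b, x % 4 ^ k), ?_, (pt_mod k b x).symm⟩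
  have h0 : (0 : ℤ) < 4 ^ k := by positivity
  have h1 : (4 : ℤ) ^ k ≤ 4 ^ n := pow_le_pow_right₀ (by norm_num) (by omega)
  have h2 := Int.emod_lt_of_pos x h0
  have h3 := Int.emod_nonneg x h0.ne'
  simp only [Finset.coe_product, Finset.coe_range, Finset.coe_Ico, Set.mem_prod, Set.mem_Iio,
    Set.mem_Ico]
  exact ⟨by omega, by omega, h3, by omega⟩

theorem graded : IsFiniteTypeGraded PP :=
  ⟨pt 0 0 0, rk, bot_le', rk_pt 0 0 0, fun _ _ h => rk_cover h, finite_rank⟩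

theorem finitary : IsFinitary PP := by
  intro a
  refine lt_of_le_of_lt (Order.height_le_height_apply_of_strictMono rk rk_strictMono a) ?_
  rw [Order.height_nat]
  exact ENat.natCast_lt_top _

theorem upho : IsUpho PP := by
  intro a
  obtain ⟨k, b, x, rfl⟩ := exists_pt a
  refine ⟨⟨⟨fun c => ⟨c.1.1.comap (gm k b x), good_comap k b x c.1.2 c.2⟩,
    fun c => ⟨⟨c.1.map (gm k b x), good_map k b x c.2⟩, AddSubgroup.map_le_range _ _⟩, ?_, ?_⟩, ?_⟩⟩
  · intro c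
    exact Subtype.ext (Subtype.ext (AddSubgroup.map_comap_eq_self c.2))
  · intro c
    exact Subtype.ext (AddSubgroup.comap_map_eq_self_of_injective (gm_inj k b x) _)
  · intro c d
    change d.1.1.comap (gm k b x) ≤ c.1.1.comap (gm k b x) ↔ d.1.1 ≤ c.1.1
    refine ⟨fun h => ?_, fun h => AddSubgroup.comap_mono h⟩
    have := AddSubgroup.map_mono (f := gm k b x) h
    rwa [AddSubgroup.map_comap_eq_self d.2, AddSubgroup.map_comap_eq_self c.2] at this

/-- The join of the covers of `L` is `4 L`. -/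
theorem isLUB_covers (k b : ℕ) (x : ℤ) :
    IsLUB {c | pt k b x ⋖ c} (pt (k + 1) (b + 2) (4 * x)) := by
  constructor
  · intro c hc
    rcases cover_cases hc with rfl | ⟨j, rfl⟩
    · exact pt_le.2 (lat_le (mem_big1 (by omega)) (mem_lat.2 ⟨0, 2, by ring, by ring⟩))
    · exact pt_le.2 (lat_le (mem_big1 (by omega)) (mem_lat.2 ⟨-j, 4, by ring, by ring⟩))
  · intro c hc
    have hcov : ∀ j : ℤ, pt k b x ⋖ pt (k + 1) b (x + 4 ^ k * j) := fun j =>
      covBy_of_rk (pt_le.2 (lat_le (mem_big1 (by omega)) (mem_lat.2 ⟨j, 1, by ring, by ring⟩)))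
        (by rw [rk_pt, rk_pt]; omega)
    rintro ⟨m, n⟩ hm
    obtain ⟨s, t, h1, h2⟩ := mem_lat.1 (hc (hcov 0) hm)
    obtain ⟨s', t', h1', h2'⟩ := mem_lat.1 (hc (hcov 1) hm)
    have ht : t' = t := mul_left_cancel₀ (by positivity) (h2'.symm.trans h2)
    subst ht
    have h3 : (4 : ℤ) ^ k * t' = 4 ^ k * (4 * (s - s')) := by
      have := h1.symm.trans h1'
      rw [pow_succ] at this
      linear_combination (-1 : ℤ) * this
    have h4 : t' = 4 * (s - s') := mul_left_cancel₀ (by positivity) h3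
    exact mem_lat.2 ⟨s, s - s', by rw [h1, h4]; ring, by rw [h2, h4]; ring⟩

theorem not_multiplicable : ¬ IsMultiplicable PP := by
  rintro ⟨mul, e, hassoc, he1, he2, hcan, -, hle⟩
  have hee : e = pt 0 0 0 := le_antisymm ((hle _ _).2 ⟨_, he1 _⟩) (bot_le' _)
  have hmono : ∀ a y z, mul a y ≤ mul a z ↔ y ≤ z := by
    intro a y z
    rw [hle, hle]
    constructor
    · rintro ⟨c, hc⟩
      exact ⟨c, hcan a _ _ (by rw [← hassoc, hc])⟩
    · rintro ⟨c, hc⟩
      exact ⟨c, by rw [hassoc, hc]⟩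
  have hlt : ∀ a y z, mul a y < mul a z ↔ y < z := by
    intro a y z
    rw [lt_iff_le_not_ge, lt_iff_le_not_ge, hmono, hmono]
  have hrefl : ∀ a y z, mul a y ⋖ mul a z → y ⋖ z := fun a y z h =>
    ⟨(hlt a _ _).1 h.1, fun w h1 h2 => h.2 ((hlt a _ _).2 h1) ((hlt a _ _).2 h2)⟩
  have hpres : ∀ a y z, y ⋖ z → mul a y ⋖ mul a z := by
    intro a y z h
    refine ⟨(hlt a _ _).2 h.1, fun w h1 h2 => ?_⟩
    obtain ⟨c, rfl⟩ := (hle a w).1 (le_trans ((hle _ _).2 ⟨y, rfl⟩) h1.le)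
    exact h.2 ((hlt a _ _).1 h1) ((hlt a _ _).1 h2)
  have hδ := isLUB_covers 0 0 0
  simp only [zero_add, mul_zero] at hδ
  -- `a * δ` is the join of the covers of `a`
  have hD : ∀ x : ℤ, mul (pt 1 0 x) (pt 1 2 0) = pt 2 2 (4 * x) := by
    intro x
    refine IsLUB.unique (s := {c | pt 1 0 x ⋖ c}) ⟨?_, ?_⟩ (isLUB_covers 1 0 x)
    · intro c hc
      obtain ⟨y, rfl⟩ := (hle _ _).1 (CovBy.le hc)
      have h1 : mul (pt 1 0 x) e ⋖ mul (pt 1 0 x) y := by rw [he2]; exact hc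
      have h2 := hrefl _ _ _ h1
      rw [hee] at h2
      exact (hmono _ _ _).2 (hδ.1 h2)
    · intro c hc
      have h0 : pt 1 0 x ≤ c :=
        le_trans (pt_le.2 (lat_le (mem_big1 (by omega)) (mem_lat.2 ⟨0, 4, by ring, by ring⟩)))
          ((isLUB_covers 1 0 x).2 hc)
      obtain ⟨y, rfl⟩ := (hle _ _).1 h0
      refine (hmono _ _ _).2 (hδ.2 fun z hz => ?_)
      have h1 := hpres (pt 1 0 x) _ _ hz
      rw [← hee, he2] at h1
      exact (hmono _ _ _).1 (hc h1)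
  have hcomp : ∀ x : ℤ, ∃ c, mul (pt 1 0 x) c = pt 1 2 0 ∧ c ≤ pt 1 2 0 ∧
      (c = pt 0 2 0 ∨ c = pt 1 1 0 ∨ c = pt 1 1 2) := by
    intro x
    have h1 : pt 1 0 x ⋖ pt 1 1 (2 * x) :=
      covBy_of_rk (pt_le.2 (lat_le (gen1_mem _ _ _) (mem_lat.2 ⟨0, 2, by ring, by ring⟩)))
        (by rw [rk_pt, rk_pt])
    have h2 : pt 1 1 (2 * x) ⋖ pt 1 2 0 :=
      covBy_of_rk (pt_le.2 (lat_le (gen1_mem _ _ _) (mem_lat.2 ⟨-x, 2, by ring, by ring⟩)))
        (by rw [rk_pt, rk_pt])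
    obtain ⟨y, hy⟩ := (hle _ _).1 h1.le
    obtain ⟨c, hc⟩ := (hle _ _).1 (h1.le.trans h2.le)
    have h3 : e ⋖ y := hrefl (pt 1 0 x) _ _ (by rw [he2, hy]; exact h1)
    have h4 : y ⋖ c := hrefl (pt 1 0 x) _ _ (by rw [hc, hy]; exact h2)
    have h5 : rk c = 2 := by
      rw [rk_cover h4, rk_cover h3, hee, rk_pt]
    have h6 : c ≤ pt 1 2 0 := by
      refine (hmono (pt 1 0 x) _ _).1 ?_
      rw [hc, hD]
      exact pt_le.2 (lat_le (mem_big1 (by omega)) (mem_lat.2 ⟨x, 1, by ring, by ring⟩))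
    refine ⟨c, hc, h6, ?_⟩
    obtain ⟨k, b, z, rfl⟩ := exists_pt c
    rw [rk_pt] at h5
    have hk := le_k (pt_le.1 h6)
    rcases Nat.le_one_iff_eq_zero_or_eq_one.1 hk with rfl | rfl
    · left
      have hb : b = 2 := by omega
      subst hb
      rw [pt_mod]
      simp
    · right
      have hb : b = 1 := by omega
      subst hb
      obtain ⟨s, t, hs, ht⟩ := mem_lat.1 (pt_le.1 h6 (gen2_mem _ _ _))
      have ht' : t = 2 := by norm_num at ht; omega
      subst ht'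
      rw [pt_mod]
      have : z % 4 ^ 1 = 0 ∨ z % 4 ^ 1 = 2 := by norm_num at hs ⊢; omega
      rcases this with h | h <;> rw [h] <;> simp
  choose c hc1 hc2 hc3 using hcomp
  have hinj : ∀ x y : ℤ, c x = c y → (4 : ℤ) ∣ x - y := by
    intro x y h
    obtain ⟨d, hd⟩ := (hle _ _).1 (hc2 x)
    have h1 : pt 2 2 (4 * x) = pt 2 2 (4 * y) := by
      rw [← hD, ← hD]
      calc mul (pt 1 0 x) (pt 1 2 0) = mul (pt 1 0 x) (mul (c x) d) := by rw [hd]
        _ = mul (pt 1 2 0) d := by rw [← hassoc, hc1]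
        _ = mul (pt 1 0 y) (mul (c x) d) := by rw [← hassoc, h, hc1]
        _ = mul (pt 1 0 y) (pt 1 2 0) := by rw [hd]
    obtain ⟨s, t, hs, ht⟩ := mem_lat.1 (pt_le.1 h1.ge (gen2_mem _ _ _))
    have ht' : t = 1 := by norm_num at ht; omega
    subst ht'
    exact ⟨s, by norm_num at hs; omega⟩
  have n01 : c 0 ≠ c 1 := fun h => by have := hinj _ _ h; omega
  have n02 : c 0 ≠ c 2 := fun h => by have := hinj _ _ h; omega
  have n03 : c 0 ≠ c 3 := fun h => by have := hinj _ _ h; omega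
  have n12 : c 1 ≠ c 2 := fun h => by have := hinj _ _ h; omega
  have n13 : c 1 ≠ c 3 := fun h => by have := hinj _ _ h; omega
  have n23 : c 2 ≠ c 3 := fun h => by have := hinj _ _ h; omega
  rcases hc3 0 with h0 | h0 | h0 <;> rcases hc3 1 with h1 | h1 | h1 <;>
    rcases hc3 2 with h2 | h2 | h2 <;> rcases hc3 3 with h3 | h3 | h3 <;>
    first
      | exact n01 (h0.trans h1.symm)
      | exact n02 (h0.trans h2.symm)
      | exact n03 (h0.trans h3.symm)
      | exact n12 (h1.trans h2.symm)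
      | exact n13 (h1.trans h3.symm)
      | exact n23 (h2.trans h3.symm)

theorem main : ∃ (P : Type) (_ : Lattice P),
    IsUpho P ∧ IsFinitary P ∧ IsFiniteTypeGraded P ∧ ¬ IsMultiplicable P :=
  ⟨PP, inferInstance, upho, finitary, graded, not_multiplicable⟩

end Pool.Agent.H669Z.Upho
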